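import Pool.Agent.MWI.StmtsT

/-!
# MWI row OSJ (MP_23468a_al)
-/

set_option autoImplicit false

namespace Pool.Agent.MWI.H82

open Pool.Agent.Helper14_MV Pool.Agent.Helper2_MV Pool.Agent.MWF Pool.Agent.MWI

variable {n : ℕ} {β : FIC}

/-- the substitution `0 ↦ l`, `1 ↦ u`, `4 ↦ v` -/
def sb (l : ℕ) (u v : List ℕ) (c : ℕ) : List ℕ :=
  if c = 0 then [l] else if c = 1 then u else if c = 4 then v else []

theorem sb_rep (l : ℕ) (u v : List ℕ) (k : ℕ) :
    (List.replicate k 0).flatMap (sb l u v) = List.replicate k l := by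
  induction k with
  | zero => rfl
  | succ k ih =>
    rw [List.replicate_succ, List.flatMap_cons, ih]
    rfl

/-- `Jn` in context -/
theorem jn_ctx (h : Jn n β) (l : ℕ) (p u v q : List ℕ) :
    RR β (p ++ l :: (u ++ l :: (v ++ l :: q)))
      (p ++ l :: (u ++ l :: (v ++ (List.replicate (n + 1) l ++ q)))) := by
  have h1 := RR.sub (sb l u v) h
  have e1 : ([0, 1, 0, 4, 0] : List ℕ).flatMap (sb l u v) = l :: (u ++ l :: (v ++ [l])) := by
    simp [sb]
  have e2 : (([0, 1, 0, 4] ++ List.replicate (n + 1) 0 : List ℕ)).flatMap (sb l u v) =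
      l :: (u ++ l :: (v ++ List.replicate (n + 1) l)) := by
    rw [List.flatMap_append, sb_rep]
    simp [sb]
  rw [e1, e2] at h1
  have h2 := ctx p q h1
  have e3 : p ++ (l :: (u ++ l :: (v ++ [l]))) ++ q = p ++ l :: (u ++ l :: (v ++ l :: q)) := by
    simp
  have e4 : p ++ (l :: (u ++ l :: (v ++ List.replicate (n + 1) l))) ++ q =
      p ++ l :: (u ++ l :: (v ++ (List.replicate (n + 1) l ++ q))) := by
    simp
  rw [e3, e4] at h2
  exact h2

/-- `En` in context -/
theorem en_ctx (h : En n β) (l : ℕ) (p u q : List ℕ) :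
    RR β (p ++ l :: l :: (u ++ q)) (p ++ l :: l :: (u ++ (List.replicate n l ++ q))) := by
  have h1 := RR.sub (sb l u []) h
  have e1 : ([0, 0, 1] : List ℕ).flatMap (sb l u []) = l :: l :: u := by
    simp [sb]
  have e2 : (([0, 0, 1] ++ List.replicate n 0 : List ℕ)).flatMap (sb l u []) =
      l :: l :: (u ++ List.replicate n l) := by
    rw [List.flatMap_append, sb_rep]
    simp [sb]
  rw [e1, e2] at h1
  have h2 := ctx p q h1
  have e3 : p ++ (l :: l :: u) ++ q = p ++ l :: l :: (u ++ q) := by simp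
  have e4 : p ++ (l :: l :: (u ++ List.replicate n l)) ++ q =
      p ++ l :: l :: (u ++ (List.replicate n l ++ q)) := by simp
  rw [e3, e4] at h2
  exact h2

theorem two_occ {A : List ℕ} {l : ℕ} (h : 2 ≤ A.count l) :
    ∃ A0 A1 A2 : List ℕ, A = A0 ++ l :: (A1 ++ l :: A2) := by
  have h1 : l ∈ A := List.count_pos_iff.1 (by omega)
  obtain ⟨A0, R, rfl, hA0⟩ := List.eq_append_cons_of_mem h1
  have h2 : A0.count l = 0 := List.count_eq_zero.2 hA0
  have h3 : (A0 ++ l :: R).count l = A0.count l + (R.count l + 1) := by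
    rw [List.count_append, List.count_cons_self]
  have h4 : l ∈ R := List.count_pos_iff.1 (by omega)
  obtain ⟨A1, A2, rfl⟩ := List.append_of_mem h4
  exact ⟨A0, A1, A2, rfl⟩

theorem osj : OsjStmt := by
  intro n β hTy hJ hE A B l z hl hz
  by_cases hlz : l = z
  · subst hlz
    exact RR.refl _
  obtain ⟨m, rfl⟩ : ∃ m, n = m + 1 := ⟨n - 1, by have := hTy.pos; omega⟩
  obtain ⟨A0, A1, A2, hA⟩ := two_occ hl
  -- step 1
  have s1 : ∀ q : List ℕ, RR β (A ++ l :: q) (A ++ (List.replicate (m + 1 + 1) l ++ q)) := by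
    intro q
    have h1 := jn_ctx hJ l A0 A1 A2 q
    have e1 : A0 ++ l :: (A1 ++ l :: (A2 ++ l :: q)) = A ++ l :: q := by
      rw [hA]; simp
    have e2 : A0 ++ l :: (A1 ++ l :: (A2 ++ (List.replicate (m + 1 + 1) l ++ q))) =
        A ++ (List.replicate (m + 1 + 1) l ++ q) := by
      rw [hA]; simp
    rw [e1, e2] at h1
    exact h1
  -- step 2
  have s2 : RR β (A ++ (List.replicate (m + 1 + 1) l ++ z :: B))
      (A ++ (List.replicate (m + 1 + 1) l ++ z :: (List.replicate (m + 1) l ++ B))) := by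
    have h1 := en_ctx hE l (A ++ List.replicate m l) [z] B
    have e : ∀ q : List ℕ, A ++ (List.replicate (m + 1 + 1) l ++ q) =
        (A ++ List.replicate m l) ++ l :: l :: q := by
      intro q
      rw [show m + 1 + 1 = m + 2 by ring, List.replicate_add]
      simp
    rw [e, e]
    exact h1
  -- step 3
  have s3 : RR β (A ++ z :: l :: B) (A ++ z :: (List.replicate (m + 1 + 1) l ++ B)) := by
    have h1 := jn_ctx hJ l A0 A1 (A2 ++ [z]) B
    have e1 : A0 ++ l :: (A1 ++ l :: ((A2 ++ [z]) ++ l :: B)) = A ++ z :: l :: B := by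
      rw [hA]; simp
    have e2 : A0 ++ l :: (A1 ++ l :: ((A2 ++ [z]) ++ (List.replicate (m + 1 + 1) l ++ B))) =
        A ++ z :: (List.replicate (m + 1 + 1) l ++ B) := by
      rw [hA]; simp
    rw [e1, e2] at h1
    exact h1
  -- step 4
  have s4 : RR β (A ++ z :: (List.replicate (m + 1 + 1) l ++ B))
      (A ++ l :: (z :: (List.replicate (m + 1) l ++ B))) :=
    hTy.k1 A (List.replicate m l ++ B) z l (Ne.symm hlz) (Or.inl hz)
  -- step 5
  exact rtr (rtr (s1 (z :: B)) s2)
    (rtr (rtr s3 s4) (s1 (z :: (List.replicate (m + 1) l ++ B)))).symm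

end Pool.Agent.MWI.H82
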